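import Mathlib
import Pool.Agent.W_MP_6f7bab_an.Defs
import Pool.Agent.W_MP_6f7bab_an.Proof

set_option autoImplicit false

namespace Pool.Agent.Results.MP_6f7bab_an.SeparationRates

open Pool.Agent.W_MP_6f7bab_an

/-- There are a one-sided subshift `X` over a finite alphabet, a metric `d` on the alphabet, an
integer `k > 1` for which `D` is a metric on `X`, and `ε > 0`, such that the exponential growth
rate of `sep(X, ε, D_T)` does not exist. -/
theorem result : ∃ (A : Type) (_ : Fintype A) (_ : TopologicalSpace A) (_ : DiscreteTopology A)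
    (X : Set (ℕ → A)) (d : A → A → ℝ) (k : ℕ) (ε : ℝ),
    IsSubshift X ∧ IsMetricOn d Set.univ ∧ 1 < k ∧ IsMetricOn (seqDist d k) X ∧ 0 < ε ∧
    Filter.liminf (fun T : ℕ =>
      ((Real.log (sep X ε (bowenDist (seqDist d k) T)) / T : ℝ) : EReal)) Filter.atTop <
    Filter.limsup (fun T : ℕ =>
      ((Real.log (sep X ε (bowenDist (seqDist d k) T)) / T : ℝ) : EReal)) Filter.atTop :=
  main

end Pool.Agent.Results.MP_6f7bab_an.SeparationRates
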